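import Pool.Agent.MLG.Final
import Pool.Agent.MLG.Transfer

set_option autoImplicit false

/-! Graph products of Morse local-to-global groups are Morse local-to-global. -/

namespace Pool.Agent.Results.MP_ebd0bd_al.GraphProducts

open Pool.Agent.MLG

universe u v w

theorem result {V : Type u} [Finite V] (Γ : SimpleGraph V) (G : V → Type v)
    [∀ a, Group (G a)] (h : ∀ a, IsMorseLTGGroup (G a)) :
    IsMorseLTGGroup (GraphProduct Γ G) ∧
    ∀ S : Finset (GraphProduct Γ G), Subgroup.closure (S : Set (GraphProduct Γ G)) = ⊤ →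
      ∀ (X : Type w) [PseudoMetricSpace X], IsCayleyModel (S : Set (GraphProduct Γ G)) X →
        MorseLTG (dist : X → X → ℝ) := by
  choose T hT X hX hmod hltg using h
  have ℓ : ∀ a, WLen (G a) := fun a => (exists_wlen (T a) (hT a)).some
  have h1 : ∀ a, DMLTG (fun g k : G a => ((ℓ a).len (g⁻¹ * k) : ℝ)) := fun a =>
    letI := hX a
    dmltg_len_of_model (ℓ a) (hT a) (hmod a) (hltg a)
  have h2 : DMLTG (fun x y : GraphProduct Γ G =>
      (((GraphProduct.gpLen (Γ := Γ) ℓ).len (x⁻¹ * y) : ℕ) : ℝ)) := by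
    have h3 := GraphProduct.dmltg_graphProduct (Γ := Γ) ℓ h1
    have e : (fun x y : GraphProduct Γ G =>
        (((GraphProduct.gpLen (Γ := Γ) ℓ).len (x⁻¹ * y) : ℕ) : ℝ)) =
        GraphProduct.Dr (Γ := Γ) ℓ := by
      funext x y
      unfold GraphProduct.Dr
      rw [GraphProduct.D_eq_len]
      rfl
    rw [e]
    exact h3
  refine ⟨?_, fun S hS X _ hX => morseLTG_of_dmltg_len _ hS hX h2⟩
  obtain ⟨S, hS⟩ := (GraphProduct.gpLen (Γ := Γ) ℓ).exists_gen
  obtain ⟨i, hi⟩ := exists_model S hS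
  exact ⟨S, hS, GraphProduct Γ G, i, hi, morseLTG_of_dmltg_len _ hS hi h2⟩

end Pool.Agent.Results.MP_ebd0bd_al.GraphProducts
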